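import Pool.Agent.K3h53.UG.Stm4
import Pool.Agent.H713R3.ZA.TROOT
import Pool.Agent.Helper540.Holo

/-! UG project (helper53, MP_209724_lc): holomorphic roots on convex open sets for families of ring
homomorphisms. Adapted from `Pool/Agent/K3h7/UG/Root.lean`. -/

set_option autoImplicit false

namespace Pool.Agent.K3h53.UG

open MvPolynomial Filter Topology Metric Set Pool.Agent.K3h22.EX

theorem t_ROOT4 : S_ROOT4 := by
  intro s A _ f U W Δ hf hUW Ω hΩ hconv χ hχ hΔ w₀ hw₀ t₀ ht₀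
  have hn : 0 < f.natDegree := by
    rcases Nat.eq_zero_or_pos f.natDegree with h0 | h0
    · exfalso
      have h1 : f = 1 := (Polynomial.Monic.natDegree_eq_zero hf).mp h0
      rw [h1, Polynomial.map_one, Polynomial.eval_one] at ht₀
      exact one_ne_zero ht₀
    · exact h0
  have hC1 : ∀ a : A, ContDiffOn ℂ 1 (fun w => χ w a) Ω := fun a =>
    by exact_mod_cast Pool.Agent.Helper540.contDiffOn_of_differentiableOn hΩ (hχ a) 1
  set F : (Fin s → ℂ) → ℂ → ℂ := fun v x => (f.map (χ v)).eval x with hF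
  have hFsum : ∀ v x, F v x = ∑ k ∈ Finset.range (f.natDegree + 1),
      χ v (f.coeff k) * x ^ k := by
    intro v x
    simp only [hF]
    rw [Polynomial.eval_map, Polynomial.eval₂_eq_sum_range]
  have hcd : ContDiffOn ℂ 1 (fun q : (Fin s → ℂ) × ℂ => F q.1 q.2) (Ω ×ˢ univ) := by
    have h1 : ContDiffOn ℂ 1 (fun q : (Fin s → ℂ) × ℂ => ∑ k ∈ Finset.range (f.natDegree + 1),
      χ q.1 (f.coeff k) * q.2 ^ k) (Ω ×ˢ univ) := by
      apply ContDiffOn.sum
      intro k _
      have h2 : ContDiffOn ℂ 1 (fun q : (Fin s → ℂ) × ℂ => χ q.1 (f.coeff k)) (Ω ×ˢ univ) :=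
        (hC1 (f.coeff k)).comp contDiff_fst.contDiffOn fun q hq => hq.1
      exact h2.mul (contDiff_snd.pow k).contDiffOn
    have h2 : (fun q : (Fin s → ℂ) × ℂ => F q.1 q.2) =
        fun q : (Fin s → ℂ) × ℂ => ∑ k ∈ Finset.range (f.natDegree + 1),
          χ q.1 (f.coeff k) * q.2 ^ k := by
      funext q
      exact hFsum q.1 q.2
    rw [h2]
    exact h1
  have hprop : ∀ K : Set (Fin s → ℂ), K ⊆ Ω → IsCompact K → ∀ M : ℝ, ∃ B : ℝ, ∀ v ∈ K, ∀ z,
      ‖F v z‖ ≤ M → ‖z‖ ≤ B := by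
    intro K hKΩ hK M
    have hcont : ContinuousOn (fun v : Fin s → ℂ => ∑ k ∈ Finset.range f.natDegree,
        ‖χ v (f.coeff k)‖) K :=
      continuousOn_finsetSum _ fun k _ => ((hC1 (f.coeff k)).continuousOn.mono hKΩ).norm
    obtain ⟨B0, hB0⟩ := hK.bddAbove_image hcont
    refine ⟨max 1 (M + B0), ?_⟩
    intro v hv z hz
    rcases le_or_gt ‖z‖ 1 with h | h
    · exact h.trans (le_max_left _ _)
    refine le_trans ?_ (le_max_right _ _)
    have hb : ∑ k ∈ Finset.range f.natDegree, ‖χ v (f.coeff k)‖ ≤ B0 :=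
      hB0 ⟨v, hv, rfl⟩
    have hM : 0 ≤ M := (norm_nonneg _).trans hz
    obtain ⟨m, hm⟩ : ∃ m, f.natDegree = m + 1 := ⟨f.natDegree - 1, by omega⟩
    have hFz : F v z = (∑ k ∈ Finset.range f.natDegree, χ v (f.coeff k) * z ^ k) +
        z ^ f.natDegree := by
      rw [hFsum, Finset.sum_range_succ]
      congr 1
      rw [Polynomial.Monic.coeff_natDegree hf, map_one, one_mul]
    have h1 : ‖z‖ ^ f.natDegree ≤ M + B0 * ‖z‖ ^ m := by
      have h2 : z ^ f.natDegree = F v z -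
          ∑ k ∈ Finset.range f.natDegree, χ v (f.coeff k) * z ^ k := by
        rw [hFz]; ring
      calc ‖z‖ ^ f.natDegree = ‖z ^ f.natDegree‖ := (norm_pow _ _).symm
        _ = ‖F v z - ∑ k ∈ Finset.range f.natDegree, χ v (f.coeff k) * z ^ k‖ := by
            rw [h2]
        _ ≤ ‖F v z‖ + ‖∑ k ∈ Finset.range f.natDegree, χ v (f.coeff k) * z ^ k‖ :=
            norm_sub_le _ _
        _ ≤ M + ∑ k ∈ Finset.range f.natDegree, ‖χ v (f.coeff k) * z ^ k‖ :=
            add_le_add hz (norm_sum_le _ _)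
        _ ≤ M + ∑ k ∈ Finset.range f.natDegree, ‖χ v (f.coeff k)‖ * ‖z‖ ^ m := by
            gcongr with k hk
            rw [norm_mul, norm_pow]
            have hk' := Finset.mem_range.mp hk
            gcongr
            · exact h.le
            · omega
        _ = M + (∑ k ∈ Finset.range f.natDegree, ‖χ v (f.coeff k)‖) * ‖z‖ ^ m := by
            rw [Finset.sum_mul]
        _ ≤ M + B0 * ‖z‖ ^ m := by gcongr
    have h3 : M ≤ M * ‖z‖ ^ m := by
      have : 1 ≤ ‖z‖ ^ m := one_le_pow₀ h.le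
      nlinarith
    have h4 : ‖z‖ * ‖z‖ ^ m ≤ (M + B0) * ‖z‖ ^ m := by
      calc ‖z‖ * ‖z‖ ^ m = ‖z‖ ^ f.natDegree := by rw [hm]; ring
        _ ≤ M + B0 * ‖z‖ ^ m := h1
        _ ≤ (M + B0) * ‖z‖ ^ m := by linarith
    exact le_of_mul_le_mul_right h4 (by positivity)
  have hsimple : ∀ v ∈ Ω, ∀ z, F v z = 0 → deriv (F v) z ≠ 0 := by
    intro v hv z hz hd
    have h1 : deriv (F v) z = ((Polynomial.derivative f).map (χ v)).eval z := by
      rw [← Polynomial.derivative_map]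
      exact Polynomial.deriv _
    have h2 := congrArg (fun q => (Polynomial.map (χ v) q).eval z) hUW
    simp only [Polynomial.map_add, Polynomial.map_mul, Polynomial.eval_add, Polynomial.eval_mul,
      Polynomial.map_C, Polynomial.eval_C] at h2
    rw [h1] at hd
    have hz' : (f.map (χ v)).eval z = 0 := hz
    rw [hd, hz', mul_zero, mul_zero, add_zero] at h2
    exact hΔ v hv h2.symm
  obtain ⟨Z, hZ1, hZ2, hZ3, -⟩ := Pool.Agent.H713R3.ZA.ROOT.main Ω F hΩ hconv hcd hprop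
    hsimple w₀ hw₀ t₀ ht₀
  exact ⟨Z, hZ1, hZ2, hZ3⟩

end Pool.Agent.K3h53.UG
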